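import Pool.Agent.PBL.Proj

/-!
# Real functionals, the density character, absence of a strong order unit
-/

namespace Pool.Agent.PBL

open Filter Topology Cardinal

universe u v w

noncomputable instance contBanachLattice (K : Type u) [TopologicalSpace K] [CompactSpace K] :
    BanachLattice C(K, ℝ) :=
  { (inferInstance : NormedAddCommGroup C(K, ℝ)), (inferInstance : Lattice C(K, ℝ)) with
    toNormedSpace := inferInstance
    complete := inferInstance
    add_le := fun a b h c x => add_le_add_right (h x) (c x)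
    smul_pos := fun r a hr ha x => mul_nonneg hr (ha x)
    solid := fun a b h => by
      refine (ContinuousMap.norm_le _ (norm_nonneg b)).2 fun x => ?_
      refine le_trans ?_ (b.norm_coe_le_norm x)
      exact h x }

variable {I : Type u}

/-- Real functionals with prescribed values at the generators. -/
theorem exists_fun (t : Gn I → ℝ) (h0 : 0 ≤ t none) (h1 : ∀ g, |t g| ≤ 1)
    (h2 : ∀ (n : ULift.{u} ℕ) (i : I), |t (some (n, i))| ≤ n.down * t none) :
    ∃ φ : Un I →L[ℝ] ℝ, (∀ x, |φ x| ≤ ‖x‖) ∧ (∀ x y, x ≤ y → φ x ≤ φ y) ∧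
      ∀ g, φ (tm (Tm.gen g)) = t g := by
  have hadm : (unitPres I).adm C(PUnit.{u + 1}, ℝ) (fun g => ContinuousMap.const _ (t g)) := by
    refine ⟨fun _ => h0, fun g => ?_, fun n i _ => h2 n i⟩
    refine (ContinuousMap.norm_le _ zero_le_one).2 fun _ => ?_
    rw [Real.norm_eq_abs]
    exact h1 g
  set j : Idx (unitPres I) := ⟨C(PUnit.{u + 1}, ℝ), inferInstance, _, hadm⟩ with hj
  let ev : C(PUnit.{u + 1}, ℝ) →L[ℝ] ℝ := ContinuousMap.evalCLM ℝ PUnit.unit
  refine ⟨ev.comp (lft j), fun x => ?_, fun x y hxy => ?_, fun g => ?_⟩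
  · refine le_trans ?_ (lft_norm j x)
    exact ContinuousMap.norm_coe_le_norm (lft j x) PUnit.unit
  · exact (lft_hom j).mono hxy PUnit.unit
  · change (lft j (tm (Tm.gen g))) PUnit.unit = t g
    rw [lft_tm]
    rfl

open Classical in
theorem one_le_dist (i j : I) (hij : i ≠ j) :
    1 ≤ ‖(tm (Tm.gen (some (⟨1⟩, i))) : Un I) - tm (Tm.gen (some (⟨1⟩, j)))‖ := by
  obtain ⟨φ, hφ, -, hφg⟩ := exists_fun (I := I)
    (fun g => match g with
      | none => 1
      | some (n, k) => if n = ⟨1⟩ ∧ k = i then 1 else 0) zero_le_one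
    (by
      rintro (_ | ⟨n, k⟩)
      · simp
      · change |(if n = ⟨1⟩ ∧ k = i then (1 : ℝ) else 0)| ≤ 1
        split_ifs <;> simp)
    (by
      intro n k
      change |(if n = ⟨1⟩ ∧ k = i then (1 : ℝ) else 0)| ≤ n.down * 1
      split_ifs with h
      · rw [h.1]
        simp
      · simp)
  have h1 := hφ ((tm (Tm.gen (some (⟨1⟩, i))) : Un I) - tm (Tm.gen (some (⟨1⟩, j))))
  rw [map_sub, hφg, hφg] at h1
  refine le_trans (le_of_eq ?_) h1
  change 1 = |(if (⟨1⟩ : ULift.{u} ℕ) = ⟨1⟩ ∧ i = i then (1 : ℝ) else 0) -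
    (if (⟨1⟩ : ULift.{u} ℕ) = ⟨1⟩ ∧ j = i then (1 : ℝ) else 0)|
  rw [if_pos ⟨rfl, rfl⟩, if_neg (fun h => hij h.2.symm)]
  simp

theorem le_mk_of_dense (D : Set (Un I)) (hD : Dense D) : #I ≤ #D := by
  have h : ∀ i : I, ∃ x ∈ D, dist (tm (Tm.gen (some (⟨1⟩, i))) : Un I) x < 1 / 2 := fun i =>
    Metric.mem_closure_iff.1 (hD _) (1 / 2) (by norm_num)
  choose x hx hd using h
  refine Cardinal.mk_le_of_injective (f := fun i => (⟨x i, hx i⟩ : D)) fun i j hij => ?_
  by_contra hne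
  have h1 := one_le_dist i j hne
  have h2 : x i = x j := congrArg Subtype.val hij
  have h3 := hd i
  have h4 := hd j
  rw [← h2] at h4
  rw [← dist_eq_norm] at h1
  have h5 := dist_triangle_right (tm (Tm.gen (some (⟨1⟩, i))) : Un I)
    (tm (Tm.gen (some (⟨1⟩, j)))) (x i)
  linarith

/-- The elements obtained from the generators in `n` steps. -/
noncomputable def lay (I : Type u) : ℕ → Set (Un I)
  | 0 => Set.range (fun g => tm (Tm.gen g))
  | n + 1 => Set.image2 (· + ·) (lay I n) (lay I n) ∪ Set.image2 (· ⊔ ·) (lay I n) (lay I n) ∪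
      ⋃ q : ULift.{u} ℚ, (fun x => (q.down : ℝ) • x) '' lay I n

theorem lay_succ (n : ℕ) : lay I n ⊆ lay I (n + 1) := fun x hx => by
  refine Or.inr (Set.mem_iUnion.2 ⟨⟨1⟩, x, hx, ?_⟩)
  change ((1 : ℚ) : ℝ) • x = x
  rw [Rat.cast_one, one_smul]

theorem lay_mono : Monotone (lay I) := monotone_nat_of_le_succ lay_succ

theorem mk_lay_le [Infinite I] (n : ℕ) : #(lay I n) ≤ #I := by
  have hI : ℵ₀ ≤ #I := Cardinal.aleph0_le_mk I
  induction n with
  | zero =>
    refine Cardinal.mk_range_le.trans ?_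
    rw [Cardinal.mk_option, Cardinal.mk_prod]
    refine Cardinal.add_le_of_le hI (Cardinal.mul_le_of_le hI ?_ ?_)
      ((Cardinal.one_le_aleph0).trans hI)
    · simp
    · simp
  | succ n ih =>
    refine (Cardinal.mk_union_le _ _).trans (Cardinal.add_le_of_le hI
      ((Cardinal.mk_union_le _ _).trans (Cardinal.add_le_of_le hI ?_ ?_)) ?_)
    · exact Cardinal.mk_image2_le.trans (Cardinal.mul_le_of_le hI ih ih)
    · exact Cardinal.mk_image2_le.trans (Cardinal.mul_le_of_le hI ih ih)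
    · refine (Cardinal.mk_iUnion_le _).trans (Cardinal.mul_le_of_le hI ?_ ?_)
      · simp
      · exact ciSup_le' fun q => Cardinal.mk_image_le.trans ih

/-- The elements obtained from the generators. -/
noncomputable def lays (I : Type u) : Set (Un I) := ⋃ n : ULift.{u} ℕ, lay I n.down

theorem mk_lays_le [Infinite I] : #(lays I) ≤ #I := by
  have hI : ℵ₀ ≤ #I := Cardinal.aleph0_le_mk I
  refine (Cardinal.mk_iUnion_le _).trans (Cardinal.mul_le_of_le hI ?_ ?_)
  · simp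
  · exact ciSup_le' fun q => mk_lay_le _

theorem mem_lays {x : Un I} : x ∈ lays I ↔ ∃ n, x ∈ lay I n := by
  unfold lays
  rw [Set.mem_iUnion]
  exact ⟨fun ⟨n, hn⟩ => ⟨n.down, hn⟩, fun ⟨n, hn⟩ => ⟨⟨n⟩, hn⟩⟩

theorem lays_add {x y : Un I} (hx : x ∈ lays I) (hy : y ∈ lays I) : x + y ∈ lays I := by
  obtain ⟨n, hn⟩ := mem_lays.1 hx
  obtain ⟨m, hm⟩ := mem_lays.1 hy
  refine mem_lays.2 ⟨max n m + 1, Or.inl (Or.inl ?_)⟩
  exact Set.mem_image2_of_mem (lay_mono (le_max_left n m) hn) (lay_mono (le_max_right n m) hm)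

theorem lays_sup {x y : Un I} (hx : x ∈ lays I) (hy : y ∈ lays I) : x ⊔ y ∈ lays I := by
  obtain ⟨n, hn⟩ := mem_lays.1 hx
  obtain ⟨m, hm⟩ := mem_lays.1 hy
  refine mem_lays.2 ⟨max n m + 1, Or.inl (Or.inr ?_)⟩
  exact Set.mem_image2_of_mem (lay_mono (le_max_left n m) hn) (lay_mono (le_max_right n m) hm)

theorem lays_smul {x : Un I} (q : ℚ) (hx : x ∈ lays I) : (q : ℝ) • x ∈ lays I := by
  obtain ⟨n, hn⟩ := mem_lays.1 hx
  exact mem_lays.2 ⟨n + 1, Or.inr (Set.mem_iUnion.2 ⟨⟨q⟩, x, hn, rfl⟩)⟩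

theorem lays_dense : Dense (lays I) := by
  have hgen : ∀ g, (tm (Tm.gen g) : Un I) ∈ lays I := fun g => mem_lays.2 ⟨0, g, rfl⟩
  have h : ∀ p : Tm (Gn I), (tm p : Un I) ∈ closure (lays I) := by
    intro p
    induction p with
    | zero =>
      have h1 := lays_smul 0 (hgen none)
      rw [Rat.cast_zero, zero_smul] at h1
      rw [tm_zero]
      exact subset_closure h1
    | gen g => exact subset_closure (hgen g)
    | add p q hp hq =>
      rw [tm_add]
      exact map_mem_closure₂ continuous_add hp hq fun a ha b hb => lays_add ha hb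
    | smul r p hp =>
      rw [tm_smul]
      have hr : r ∈ closure (Set.range ((↑) : ℚ → ℝ)) := Rat.denseRange_cast r
      refine map_mem_closure₂ (f := fun (s : ℝ) (x : Un I) => s • x) continuous_smul hr hp ?_
      rintro _ ⟨q, rfl⟩ b hb
      exact lays_smul q hb
    | sup p q hp hq =>
      rw [tm_sup]
      exact map_mem_closure₂ (continuous_fst.sup continuous_snd) hp hq
        fun a ha b hb => lays_sup ha hb
  have h1 : closure (Set.range (tm : Tm (Gn I) → Un I)) ⊆ closure (lays I) := by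
    refine closure_minimal ?_ isClosed_closure
    rintro _ ⟨p, rfl⟩
    exact h p
  exact fun x => h1 (tm_dense x)

/-- There is no strong order unit. -/
theorem no_strong [Nonempty I] (e : Un I) : ∃ x : Un I, ∀ n : ℕ, ¬ |x| ≤ (n : ℝ) • e := by
  classical
  obtain ⟨i0⟩ := ‹Nonempty I›
  have hφ : ∀ k : ℕ, ∃ φ : Un I →L[ℝ] ℝ, (∀ x, |φ x| ≤ ‖x‖) ∧ (∀ x y, x ≤ y → φ x ≤ φ y) ∧
      φ (unit I) = 1 / (k + 1) ∧ φ (tm (Tm.gen (some (⟨k + 1⟩, i0)))) = 1 := by
    intro k
    have hk : (0 : ℝ) < (k : ℝ) + 1 := by positivity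
    obtain ⟨φ, h1, h2, h3⟩ := exists_fun (I := I)
      (fun g => match g with
        | none => 1 / ((k : ℝ) + 1)
        | some (n, i) => if n = ⟨k + 1⟩ ∧ i = i0 then 1 else 0) (by positivity)
      (by
        rintro (_ | ⟨n, i⟩)
        · change |1 / ((k : ℝ) + 1)| ≤ 1
          rw [abs_of_pos (by positivity), div_le_one hk]
          linarith [Nat.cast_nonneg (α := ℝ) k]
        · change |(if n = ⟨k + 1⟩ ∧ i = i0 then (1 : ℝ) else 0)| ≤ 1
          split_ifs <;> simp)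
      (by
        intro n i
        change |(if n = ⟨k + 1⟩ ∧ i = i0 then (1 : ℝ) else 0)| ≤ n.down * (1 / ((k : ℝ) + 1))
        split_ifs with h
        · rw [h.1, abs_one]
          push_cast
          rw [mul_one_div, div_self hk.ne']
        · rw [abs_zero]
          positivity)
    refine ⟨φ, h1, h2, h3 none, ?_⟩
    rw [h3]
    change (if (⟨k + 1⟩ : ULift.{u} ℕ) = ⟨k + 1⟩ ∧ i0 = i0 then (1 : ℝ) else 0) = 1
    rw [if_pos ⟨rfl, rfl⟩]
  choose φ hφn hφm hφu hφg using hφ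
  have hlim : ∀ δ : ℝ, 0 < δ → ∃ k, φ k e ≤ δ := by
    intro δ hδ
    obtain ⟨_, ⟨p, rfl⟩, hp⟩ := Metric.mem_closure_iff.1 (tm_dense e) (δ / 2) (by positivity)
    obtain ⟨c, hc, hb⟩ := tm_bound p
    obtain ⟨k, hk⟩ := exists_nat_gt (2 * c / δ)
    refine ⟨k, ?_⟩
    have hk0 : (0 : ℝ) < (k : ℝ) + 1 := by positivity
    have h1 : φ k e = φ k (e - tm p) + φ k (tm p) := by rw [map_sub]; ring
    have h2 : φ k (e - tm p) ≤ δ / 2 := by
      rw [dist_eq_norm] at hp
      exact (le_abs_self _).trans ((hφn k _).trans hp.le)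
    have h3 : φ k (tm p) ≤ c * (1 / (k + 1)) := by
      have h4 := hφm k _ _ ((le_abs_self _).trans (abs_tm_le hb))
      rwa [map_smul, hφu, smul_eq_mul] at h4
    have h5 : c * (1 / ((k : ℝ) + 1)) ≤ δ / 2 := by
      rw [mul_one_div, div_le_iff₀ hk0]
      have h6 : 2 * c < k * δ := by rwa [div_lt_iff₀ hδ] at hk
      nlinarith
    rw [h1]
    linarith
  choose k hk using fun m : ℕ => hlim ((1 / 4) ^ m) (by positivity)
  set g : ℕ → Un I := fun m => |tm (Tm.gen (some (⟨k m + 1⟩, i0)))| with hg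
  have hgn : ∀ m, ‖g m‖ ≤ 1 := fun m => by
    rw [hg]
    change ‖|_|‖ ≤ 1
    rw [norm_abs_eq_norm]
    exact norm_tm_gen _
  have hg0 : ∀ m, 0 ≤ g m := fun m => abs_nonneg _
  have hsum : Summable (fun m => ((1 : ℝ) / 2) ^ m • g m) := by
    refine Summable.of_norm_bounded (g := fun m => ((1 : ℝ) / 2) ^ m)
      (summable_geometric_of_lt_one (by norm_num) (by norm_num)) fun m => ?_
    rw [norm_smul, norm_pow]
    have h1 : ‖(1 : ℝ) / 2‖ = 1 / 2 := by norm_num
    rw [h1]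
    exact mul_le_of_le_one_right (by positivity) (hgn m)
  refine ⟨∑' m, ((1 : ℝ) / 2) ^ m • g m, fun n hn => ?_⟩
  have hge : ∀ m, ((1 : ℝ) / 2) ^ m ≤ n * (1 / 4) ^ m := by
    intro m
    have h1 : ((1 : ℝ) / 2) ^ m • g m ≤ ∑' m, ((1 : ℝ) / 2) ^ m • g m :=
      le_hasSum hsum.hasSum m fun j _ => smul_nonneg (by positivity) (hg0 j)
    have h2 := hφm (k m) _ _ ((h1.trans (le_abs_self _)).trans hn)
    rw [map_smul, map_smul, smul_eq_mul, smul_eq_mul] at h2
    have h3 : 1 ≤ φ (k m) (g m) := by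
      rw [← hφg (k m)]
      exact hφm (k m) _ _ (le_abs_self _)
    have h4 : ((1 : ℝ) / 2) ^ m ≤ ((1 : ℝ) / 2) ^ m * φ (k m) (g m) :=
      le_mul_of_one_le_right (by positivity) h3
    exact h4.trans (h2.trans (mul_le_mul_of_nonneg_left (hk m) (Nat.cast_nonneg n)))
  have hcontra := hge n
  have h5 : ((1 : ℝ) / 4) ^ n = (1 / 2) ^ n * (1 / 2) ^ n := by
    rw [← mul_pow]
    norm_num
  rw [h5, ← mul_assoc] at hcontra
  have h6 : (0 : ℝ) < (1 / 2) ^ n := by positivity
  have h7 : 1 ≤ (n : ℝ) * (1 / 2) ^ n := by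
    by_contra hlt
    push Not at hlt
    nlinarith
  have h8 : (n : ℝ) < 2 ^ n := by exact_mod_cast n.lt_two_pow_self
  have h9 : ((1 : ℝ) / 2) ^ n * 2 ^ n = 1 := by
    rw [← mul_pow]
    norm_num
  nlinarith

end Pool.Agent.PBL
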