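import Pool.Agent.PBL.Defs

/-!
# The completion of a normed vector lattice is a Banach lattice
-/

namespace Pool.Agent.PBL

open UniformSpace

universe u

section

variable {E : Type u} [NormedAddCommGroup E] [Lattice E] [HasSolidNorm E] [IsOrderedAddMonoid E]

theorem uc_sup : UniformContinuous₂ (fun a b : E => a ⊔ b) := by
  have h : LipschitzWith 2 (fun p : E × E => p.1 ⊔ p.2) := by
    refine LipschitzWith.of_dist_le_mul fun p q => ?_
    rw [dist_eq_norm]
    refine (norm_sup_sub_sup_le_add_norm _ _ _ _).trans ?_
    have h1 : ‖p.1 - q.1‖ ≤ dist p q := by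
      rw [← dist_eq_norm]
      exact le_max_left _ _
    have h2 : ‖p.2 - q.2‖ ≤ dist p q := by
      rw [← dist_eq_norm]
      exact le_max_right _ _
    have h3 : ((2 : NNReal) : ℝ) = 2 := rfl
    rw [h3]
    linarith
  exact h.uniformContinuous

theorem uc_inf : UniformContinuous₂ (fun a b : E => a ⊓ b) := by
  have h : LipschitzWith 2 (fun p : E × E => p.1 ⊓ p.2) := by
    refine LipschitzWith.of_dist_le_mul fun p q => ?_
    rw [dist_eq_norm]
    refine (norm_inf_sub_inf_le_add_norm _ _ _ _).trans ?_
    have h1 : ‖p.1 - q.1‖ ≤ dist p q := by
      rw [← dist_eq_norm]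
      exact le_max_left _ _
    have h2 : ‖p.2 - q.2‖ ≤ dist p q := by
      rw [← dist_eq_norm]
      exact le_max_right _ _
    have h3 : ((2 : NNReal) : ℝ) = 2 := rfl
    rw [h3]
    linarith
  exact h.uniformContinuous

noncomputable instance complMax : Max (Completion E) := ⟨Completion.map₂ (fun a b : E => a ⊔ b)⟩

noncomputable instance complMin : Min (Completion E) := ⟨Completion.map₂ (fun a b : E => a ⊓ b)⟩

theorem coe_sup (a b : E) : ((a ⊔ b : E) : Completion E) = (a : Completion E) ⊔ b :=
  (Completion.map₂_coe_coe a b _ uc_sup).symm

theorem coe_inf (a b : E) : ((a ⊓ b : E) : Completion E) = (a : Completion E) ⊓ b :=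
  (Completion.map₂_coe_coe a b _ uc_inf).symm

theorem cont_sup {A : Type*} [TopologicalSpace A] {f g : A → Completion E} (hf : Continuous f)
    (hg : Continuous g) : Continuous (fun a => f a ⊔ g a) :=
  Completion.continuous_map₂ hf hg

theorem cont_inf {A : Type*} [TopologicalSpace A] {f g : A → Completion E} (hf : Continuous f)
    (hg : Continuous g) : Continuous (fun a => f a ⊓ g a) :=
  Completion.continuous_map₂ hf hg

noncomputable instance complLattice : Lattice (Completion E) :=
  Lattice.mk'
    (fun a b => Completion.induction_on₂ a b
      (isClosed_eq (cont_sup continuous_fst continuous_snd) (cont_sup continuous_snd continuous_fst))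
      (fun a b => by rw [← coe_sup, ← coe_sup, sup_comm]))
    (fun a b c => Completion.induction_on₃ a b c
      (isClosed_eq
        (cont_sup (cont_sup continuous_fst (continuous_fst.comp continuous_snd))
          (continuous_snd.comp continuous_snd))
        (cont_sup continuous_fst
          (cont_sup (continuous_fst.comp continuous_snd) (continuous_snd.comp continuous_snd))))
      (fun a b c => by simp only [← coe_sup, sup_assoc]))
    (fun a b => Completion.induction_on₂ a b
      (isClosed_eq (cont_inf continuous_fst continuous_snd) (cont_inf continuous_snd continuous_fst))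
      (fun a b => by rw [← coe_inf, ← coe_inf, inf_comm]))
    (fun a b c => Completion.induction_on₃ a b c
      (isClosed_eq
        (cont_inf (cont_inf continuous_fst (continuous_fst.comp continuous_snd))
          (continuous_snd.comp continuous_snd))
        (cont_inf continuous_fst
          (cont_inf (continuous_fst.comp continuous_snd) (continuous_snd.comp continuous_snd))))
      (fun a b c => by simp only [← coe_inf, inf_assoc]))
    (fun a b => Completion.induction_on₂ a b
      (isClosed_eq (cont_sup continuous_fst (cont_inf continuous_fst continuous_snd))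
        continuous_fst)
      (fun a b => by rw [← coe_inf, ← coe_sup, sup_inf_self]))
    (fun a b => Completion.induction_on₂ a b
      (isClosed_eq (cont_inf continuous_fst (cont_sup continuous_fst continuous_snd))
        continuous_fst)
      (fun a b => by rw [← coe_sup, ← coe_inf, inf_sup_self]))

theorem compl_add_sup (a b c : Completion E) : c + (a ⊔ b) = (c + a) ⊔ (c + b) :=
  Completion.induction_on₃ a b c
    (isClosed_eq
      ((continuous_snd.comp continuous_snd).add
        (cont_sup continuous_fst (continuous_fst.comp continuous_snd)))
      (cont_sup ((continuous_snd.comp continuous_snd).add continuous_fst)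
        ((continuous_snd.comp continuous_snd).add (continuous_fst.comp continuous_snd))))
    (fun a b c => by
      rw [← coe_sup, ← Completion.coe_add, ← Completion.coe_add, ← Completion.coe_add, ← coe_sup,
        add_sup])

theorem coe_abs (a : E) : ((|a| : E) : Completion E) = |(a : Completion E)| := by
  change ((a ⊔ -a : E) : Completion E) = (a : Completion E) ⊔ -(a : Completion E)
  rw [coe_sup, Completion.coe_neg]

theorem cont_abs {A : Type*} [TopologicalSpace A] {f : A → Completion E} (hf : Continuous f) :
    Continuous (fun a => |f a|) :=
  cont_sup hf hf.neg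

theorem compl_norm_abs (x : Completion E) : ‖|x|‖ = ‖x‖ :=
  Completion.induction_on x (isClosed_eq (cont_abs continuous_id).norm continuous_norm)
    (fun a => by rw [← coe_abs, Completion.norm_coe, Completion.norm_coe, norm_abs_eq_norm])

theorem compl_norm_le_sup (x y : Completion E) : ‖|x|‖ ≤ ‖|x| ⊔ |y|‖ :=
  Completion.induction_on₂ x y
    (isClosed_le (cont_abs continuous_fst).norm
      (cont_sup (cont_abs continuous_fst) (cont_abs continuous_snd)).norm)
    (fun a b => by
      rw [← coe_abs, ← coe_abs, ← coe_sup, Completion.norm_coe, Completion.norm_coe]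
      refine HasSolidNorm.solid ?_
      rw [abs_abs]
      exact le_sup_left.trans (le_abs_self _))

theorem compl_solid (x y : Completion E) (h : |x| ≤ |y|) : ‖x‖ ≤ ‖y‖ := by
  rw [← compl_norm_abs x, ← compl_norm_abs y]
  have h1 := compl_norm_le_sup x y
  rwa [sup_eq_right.2 h] at h1

variable [NormedSpace ℝ E]

theorem compl_smul_nonneg (hs : ∀ (r : ℝ) (a : E), 0 ≤ r → 0 ≤ a → 0 ≤ r • a) (r : ℝ)
    (hr : 0 ≤ r) (x : Completion E) : 0 ⊔ r • ((0 : Completion E) ⊔ x) = r • (0 ⊔ x) :=
  Completion.induction_on x
    (isClosed_eq (cont_sup continuous_const ((cont_sup continuous_const continuous_id).const_smul r))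
      ((cont_sup continuous_const continuous_id).const_smul r))
    (fun a => by
      rw [← Completion.coe_zero, ← coe_sup, ← Completion.coe_smul, ← coe_sup]
      congr 1
      exact sup_eq_right.2 (hs r _ hr le_sup_left))

/-- The completion as a Banach lattice. -/
noncomputable abbrev complBanachLattice
    (hs : ∀ (r : ℝ) (a : E), 0 ≤ r → 0 ≤ a → 0 ≤ r • a) : BanachLattice (Completion E) :=
  { (inferInstance : NormedAddCommGroup (Completion E)),
    (complLattice : Lattice (Completion E)) with
    toNormedSpace := inferInstance
    complete := inferInstance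
    add_le := fun a b h c => by
      rw [← sup_eq_right] at h ⊢
      rw [← compl_add_sup, h]
    smul_pos := fun r a hr ha => by
      have h := compl_smul_nonneg hs r hr a
      rw [sup_eq_right.2 ha] at h
      exact sup_eq_right.1 h
    solid := compl_solid }

end

end Pool.Agent.PBL
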