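import Mathlib

/-!
# Banach lattices: topological order units, quotient maps, projectivity
-/

namespace Pool.Agent.PBL

universe u v w

/-- A real Banach lattice: a complete real normed space with a lattice order such that the order
is compatible with addition and with multiplication by non-negative reals, and the norm is
solid (`|a| ≤ |b|` implies `‖a‖ ≤ ‖b‖`). -/
class BanachLattice (X : Type u) extends NormedAddCommGroup X, Lattice X where
  [toNormedSpace : NormedSpace ℝ X]
  complete : CompleteSpace X
  add_le : ∀ a b : X, a ≤ b → ∀ c : X, c + a ≤ c + b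
  smul_pos : ∀ (r : ℝ) (a : X), 0 ≤ r → 0 ≤ a → 0 ≤ r • a
  solid : ∀ a b : X, |a| ≤ |b| → ‖a‖ ≤ ‖b‖

attribute [reducible, instance] BanachLattice.toNormedSpace

section

variable {X : Type u} [BanachLattice X]

instance : CompleteSpace X := BanachLattice.complete

instance : IsOrderedAddMonoid X where
  add_le_add_left a b h c := by
    rw [add_comm a c, add_comm b c]
    exact BanachLattice.add_le a b h c

instance : HasSolidNorm X := ⟨fun a b h => BanachLattice.solid a b h⟩

instance : PosSMulMono ℝ X where
  smul_le_smul_of_nonneg_left r hr a b h := by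
    have h1 := BanachLattice.smul_pos r (b - a) hr (sub_nonneg.2 h)
    rw [smul_sub] at h1
    exact sub_nonneg.1 h1

end

/-- A closed ideal: a closed linear subspace `J` such that `|y| ≤ |x|` and `x ∈ J` imply
`y ∈ J`. -/
structure IsClosedIdeal {X : Type u} [BanachLattice X] (J : Submodule ℝ X) : Prop where
  solid : ∀ x ∈ J, ∀ y : X, |y| ≤ |x| → y ∈ J
  closed : IsClosed (J : Set X)

/-- A topological order unit (quasi-interior point): an element `e ≥ 0` such that the closed
ideal generated by `e` is the whole space. -/
def IsTopUnit {X : Type u} [BanachLattice X] (e : X) : Prop :=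
  0 ≤ e ∧ ∀ J : Submodule ℝ X, IsClosedIdeal J → e ∈ J → J = ⊤

/-- A lattice homomorphism: a (continuous) linear map which preserves finite suprema and
infima. -/
def IsLatHom {X : Type u} {Y : Type v} [BanachLattice X] [BanachLattice Y]
    (T : X →L[ℝ] Y) : Prop :=
  (∀ x y, T (x ⊔ y) = T x ⊔ T y) ∧ ∀ x y, T (x ⊓ y) = T x ⊓ T y

/-- `Q : X → Y` is a quotient map: a surjective lattice homomorphism such that the norm of `Y` is
the quotient norm. So `Y` is the Banach lattice `X / J` with `J` the kernel of `Q`, a closed
ideal. -/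
structure IsQuotMap {X : Type u} {Y : Type v} [BanachLattice X] [BanachLattice Y]
    (Q : X →L[ℝ] Y) : Prop where
  hom : IsLatHom Q
  surj : Function.Surjective Q
  norm : ∀ y, ‖y‖ = sInf ((fun x => ‖x‖) '' (Q ⁻¹' {y}))

/-- A projective Banach lattice: every lattice homomorphism `T` into a quotient `Y` of a Banach
lattice `X` lifts for every `ε > 0` to a lattice homomorphism into `X` of norm at most
`(1 + ε) ‖T‖`. -/
def Projective (P : Type u) [BanachLattice P] : Prop :=
  ∀ (X Y : Type u) [BanachLattice X] [BanachLattice Y] (Q : X →L[ℝ] Y), IsQuotMap Q →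
    ∀ T : P →L[ℝ] Y, IsLatHom T → ∀ ε : ℝ, 0 < ε →
      ∃ S : P →L[ℝ] X, IsLatHom S ∧ (∀ p, Q (S p) = T p) ∧ ‖S‖ ≤ (1 + ε) * ‖T‖

end Pool.Agent.PBL
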