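import Pool.Agent.PBL.Term
import Pool.Agent.PBL.Compl

/-!
# The Banach lattice presented by a class of admissible families
-/

namespace Pool.Agent.PBL

open UniformSpace

universe u v w

section Hom

variable {X : Type u} {Y : Type v} {Z : Type w} [BanachLattice X] [BanachLattice Y]
  [BanachLattice Z]

theorem IsLatHom.abs {T : X →L[ℝ] Y} (h : IsLatHom T) (x : X) : T |x| = |T x| := by
  change T (x ⊔ -x) = T x ⊔ -T x
  rw [h.1, map_neg]

theorem IsLatHom.nonneg {T : X →L[ℝ] Y} (h : IsLatHom T) {x : X} (hx : 0 ≤ x) : 0 ≤ T x := by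
  have h1 := h.1 0 x
  rw [sup_eq_right.2 hx, map_zero] at h1
  rw [h1]
  exact le_sup_left

theorem IsLatHom.mono {T : X →L[ℝ] Y} (h : IsLatHom T) {x y : X} (hx : x ≤ y) : T x ≤ T y := by
  have h1 := h.nonneg (sub_nonneg.2 hx)
  rw [map_sub] at h1
  exact sub_nonneg.1 h1

/-- Preservation of suprema is enough. -/
theorem isLatHom_of_sup {T : X →L[ℝ] Y} (h : ∀ x y, T (x ⊔ y) = T x ⊔ T y) : IsLatHom T := by
  refine ⟨h, fun x y => ?_⟩
  have h1 : x ⊓ y = -(-x ⊔ -y) := by rw [neg_sup, neg_neg, neg_neg]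
  rw [h1, map_neg, h, map_neg, map_neg, neg_sup, neg_neg, neg_neg]

theorem smul_sup_of_nonneg (c : ℝ) (hc : 0 ≤ c) (x y : X) : c • (x ⊔ y) = c • x ⊔ c • y := by
  rcases hc.eq_or_lt with h | h
  · rw [← h]
    simp
  · refine le_antisymm ?_ (sup_le (smul_le_smul_of_nonneg_left le_sup_left hc)
      (smul_le_smul_of_nonneg_left le_sup_right hc))
    have h1 : x ⊔ y ≤ c⁻¹ • (c • x ⊔ c • y) := by
      refine sup_le ?_ ?_
      · have h2 := smul_le_smul_of_nonneg_left (le_sup_left : c • x ≤ c • x ⊔ c • y)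
          (inv_nonneg.2 hc)
        rwa [smul_smul, inv_mul_cancel₀ h.ne', one_smul] at h2
      · have h2 := smul_le_smul_of_nonneg_left (le_sup_right : c • y ≤ c • x ⊔ c • y)
          (inv_nonneg.2 hc)
        rwa [smul_smul, inv_mul_cancel₀ h.ne', one_smul] at h2
    have h3 := smul_le_smul_of_nonneg_left h1 hc
    rwa [smul_smul, mul_inv_cancel₀ h.ne', one_smul] at h3

theorem IsLatHom.smul {T : X →L[ℝ] Y} (h : IsLatHom T) (c : ℝ) (hc : 0 ≤ c) :
    IsLatHom (c • T) := by
  refine isLatHom_of_sup fun x y => ?_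
  change c • T (x ⊔ y) = c • T x ⊔ c • T y
  rw [h.1, smul_sup_of_nonneg c hc]

theorem IsLatHom.comp {T : X →L[ℝ] Y} {R : Y →L[ℝ] Z} (hR : IsLatHom R) (hT : IsLatHom T) :
    IsLatHom (R.comp T) := by
  refine isLatHom_of_sup fun x y => ?_
  change R (T (x ⊔ y)) = R (T x) ⊔ R (T y)
  rw [hT.1, hR.1]

end Hom

variable {G : Type u} (S : Pres G)

/-- The Banach lattice presented by `S`. -/
def Fr : Type u := Completion (Lt S)

noncomputable instance : BanachLattice (Fr S) := complBanachLattice Lt.smul_nonneg'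

variable {S}

/-- The class of a term. -/
noncomputable def tm (p : Tm G) : Fr S := ((Lt.mk p : Lt S) : Completion (Lt S))

/-- The canonical linear map. -/
noncomputable def inc : Lt S →ₗ[ℝ] Fr S where
  toFun a := (a : Completion (Lt S))
  map_add' a b := Completion.coe_add a b
  map_smul' r a := Completion.coe_smul r a

theorem inc_dense : DenseRange (inc : Lt S →ₗ[ℝ] Fr S) := Completion.denseRange_coe

theorem norm_inc (a : Lt S) : ‖(inc a : Fr S)‖ = ‖a‖ := Completion.norm_coe a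

theorem inc_sup (a b : Lt S) : (inc (a ⊔ b) : Fr S) = inc a ⊔ inc b := coe_sup a b

theorem inc_mono {a b : Lt S} (h : a ≤ b) : (inc a : Fr S) ≤ inc b :=
  sup_eq_right.1 ((inc_sup a b).symm.trans (congrArg inc (sup_eq_right.2 h)))

theorem inc_abs (a : Lt S) : (inc |a| : Fr S) = |inc a| := coe_abs a

theorem tm_eq (p : Tm G) : (tm p : Fr S) = inc (Lt.mk p) := rfl

theorem tm_dense : DenseRange (tm : Tm G → Fr S) := by
  have h : Set.range (tm : Tm G → Fr S) = Set.range (inc : Lt S →ₗ[ℝ] Fr S) := by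
    ext x
    constructor
    · rintro ⟨p, rfl⟩
      exact ⟨Lt.mk p, rfl⟩
    · rintro ⟨a, rfl⟩
      induction a using Lt.ind with
      | h p => exact ⟨p, rfl⟩
  have h1 := inc_dense (S := S)
  unfold DenseRange at h1 ⊢
  rwa [h]

theorem tm_zero : (tm Tm.zero : Fr S) = 0 := (inc : Lt S →ₗ[ℝ] Fr S).map_zero

theorem tm_add (p q : Tm G) : (tm (p.add q) : Fr S) = tm p + tm q :=
  (inc : Lt S →ₗ[ℝ] Fr S).map_add (Lt.mk p) (Lt.mk q)

theorem tm_smul (r : ℝ) (p : Tm G) : (tm (p.smul r) : Fr S) = r • tm p :=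
  (inc : Lt S →ₗ[ℝ] Fr S).map_smul r (Lt.mk p)

theorem tm_sup (p q : Tm G) : (tm (p.sup q) : Fr S) = tm p ⊔ tm q :=
  inc_sup (Lt.mk p) (Lt.mk q)

/-- The linear map from the lattice of terms given by an admissible family. -/
noncomputable def evl (i : Idx S) : Lt S →ₗ[ℝ] i.Y where
  toFun a := Lt.all a i
  map_add' a b := congrFun (Lt.all_add a b) i
  map_smul' r a := congrFun (Lt.all_smul r a) i

theorem evl_norm (i : Idx S) (a : Lt S) : ‖evl i a‖ ≤ 1 * ‖(inc a : Fr S)‖ := by
  rw [one_mul, norm_inc]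
  exact Lt.le_nrm a i

/-- The lattice homomorphism given by an admissible family. -/
noncomputable def lft (i : Idx S) : Fr S →L[ℝ] i.Y := (evl i).extendOfNorm inc

theorem lft_inc (i : Idx S) (a : Lt S) : lft i (inc a) = evl i a :=
  LinearMap.extendOfNorm_eq inc_dense ⟨1, evl_norm i⟩ a

theorem lft_tm (i : Idx S) (p : Tm G) : lft i (tm p) = p.ev i.f := lft_inc i (Lt.mk p)

theorem lft_norm (i : Idx S) (x : Fr S) : ‖lft i x‖ ≤ ‖x‖ := by
  have h := LinearMap.norm_extendOfNorm_apply_le (f := evl i) inc_dense 1 (evl_norm i) x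
  rwa [one_mul] at h

theorem lft_hom (i : Idx S) : IsLatHom (lft i) := by
  refine isLatHom_of_sup fun x y => ?_
  refine tm_dense.induction_on₂
    (p := fun x y : Fr S => lft i (x ⊔ y) = lft i x ⊔ lft i y) ?_ ?_ x y
  · exact isClosed_eq ((lft i).continuous.comp (continuous_fst.sup continuous_snd))
      (((lft i).continuous.comp continuous_fst).sup ((lft i).continuous.comp continuous_snd))
  · intro p q
    rw [← tm_sup, lft_tm, lft_tm, lft_tm]
    rfl

/-- Two lattice homomorphisms which agree on the generators are equal. -/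
theorem hom_ext {Y : Type v} [BanachLattice Y] {A B : Fr S →L[ℝ] Y} (hA : IsLatHom A)
    (hB : IsLatHom B) (h : ∀ g, A (tm (Tm.gen g)) = B (tm (Tm.gen g))) (x : Fr S) :
    A x = B x := by
  refine tm_dense.induction_on (p := fun x : Fr S => A x = B x) x
    (isClosed_eq A.continuous B.continuous) fun p => ?_
  induction p with
  | zero => rw [tm_zero, map_zero, map_zero]
  | gen g => exact h g
  | add p q hp hq => rw [tm_add, map_add, map_add, hp, hq]
  | smul r p hp => rw [tm_smul, map_smul, map_smul, hp]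
  | sup p q hp hq => rw [tm_sup, hA.1, hB.1, hp, hq]

theorem norm_tm_gen (g : G) : ‖(tm (Tm.gen g) : Fr S)‖ ≤ 1 := by
  rw [tm_eq, norm_inc]
  exact Lt.nrm_le zero_le_one fun i => S.norm_le i.Y i.f i.hf g

theorem tm_le {p q : Tm G} (h : ∀ i : Idx S, p.ev i.f ≤ q.ev i.f) : (tm p : Fr S) ≤ tm q :=
  inc_mono (a := Lt.mk p) (b := Lt.mk q) h

end Pool.Agent.PBL
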