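import Pool.Agent.PBL.Free

/-!
# The free Banach lattice with a topological order unit and bounded generators
-/

namespace Pool.Agent.PBL

universe u v w

section Clamp

variable {X : Type u} {Y : Type v} [BanachLattice X] [BanachLattice Y]

/-- The truncation of `x` at `a`. -/
def clamp (a x : X) : X := (x ⊓ a) ⊔ -a

theorem abs_clamp_le {a : X} (ha : 0 ≤ a) (x : X) : |clamp a x| ≤ a := by
  rw [abs_le']
  constructor
  · exact sup_le inf_le_right (neg_le_self ha)
  · rw [neg_le]
    exact le_sup_right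

theorem abs_clamp_le_abs {a : X} (ha : 0 ≤ a) (x : X) : |clamp a x| ≤ |x| := by
  rw [abs_le']
  constructor
  · exact sup_le (inf_le_left.trans (le_abs_self x)) ((neg_nonpos.2 ha).trans (abs_nonneg x))
  · rw [neg_le]
    refine le_trans (le_inf (neg_le.1 (neg_le_abs x)) ?_) le_sup_left
    exact (neg_nonpos.2 (abs_nonneg x)).trans ha

theorem clamp_eq {a x : X} (h : |x| ≤ a) : clamp a x = x := by
  have h1 := abs_le'.1 h
  unfold clamp
  rw [inf_eq_left.2 h1.1, sup_eq_left]
  rw [neg_le]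
  exact h1.2

theorem IsLatHom.clamp {T : X →L[ℝ] Y} (h : IsLatHom T) (a x : X) :
    T (clamp a x) = PBL.clamp (T a) (T x) := by
  unfold PBL.clamp
  rw [h.1, h.2, map_neg]

theorem clamp_continuous (a : X) : Continuous (clamp a) :=
  (continuous_id.inf continuous_const).sup continuous_const

theorem norm_clamp_le {a : X} (ha : 0 ≤ a) (x : X) : ‖clamp a x‖ ≤ ‖x‖ :=
  BanachLattice.solid _ _ (abs_clamp_le_abs ha x)

theorem norm_clamp_sub_le (a x y : X) : ‖clamp a x - clamp a y‖ ≤ ‖x - y‖ :=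
  (norm_sup_sub_sup_le_norm _ _ _).trans (norm_inf_sub_inf_le_norm _ _ _)

end Clamp

section Quot

variable {X : Type u} {Y : Type v} [BanachLattice X] [BanachLattice Y]

theorem IsQuotMap.exists_lt {Q : X →L[ℝ] Y} (h : IsQuotMap Q) (y : Y) {c : ℝ} (hc : ‖y‖ < c) :
    ∃ x, Q x = y ∧ ‖x‖ < c := by
  rw [h.norm y] at hc
  obtain ⟨x0, hx0⟩ := h.surj y
  have hne : ((fun x => ‖x‖) '' (Q ⁻¹' {y})).Nonempty := ⟨_, x0, hx0, rfl⟩
  obtain ⟨r, ⟨x, hx, rfl⟩, hr⟩ := exists_lt_of_csInf_lt hne hc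
  exact ⟨x, hx, hr⟩

end Quot

/-- The generators: the unit and the elements `x (n, i)`. -/
abbrev Gn (I : Type u) : Type u := Option (ULift.{u} ℕ × I)

/-- The relations: `u ≥ 0`, all norms at most one, `|x (n, i)| ≤ n u`. -/
def unitPres (I : Type u) : Pres (Gn I) where
  adm _ _ f := 0 ≤ f none ∧ (∀ g, ‖f g‖ ≤ 1) ∧
    ∀ (n : ULift.{u} ℕ) (i : I), |f (some (n, i))| ≤ (n.down : ℝ) • f none
  norm_le _ _ _ h := h.2.1

/-- The Banach lattice with generators `u` and `x (n, i)` and these relations. -/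
abbrev Un (I : Type u) : Type u := Fr (unitPres I)

variable {I : Type u}

/-- A term is bounded by a multiple of the unit. -/
theorem tm_bound (p : Tm (Gn I)) : ∃ c : ℝ, 0 ≤ c ∧ ∀ i : Idx (unitPres I),
    |p.ev i.f| ≤ c • i.f none := by
  induction p with
  | zero =>
    refine ⟨0, le_rfl, fun i => ?_⟩
    change |(0 : i.Y)| ≤ _
    rw [abs_zero, zero_smul]
  | gen g =>
    rcases g with _ | ⟨n, j⟩
    · refine ⟨1, zero_le_one, fun i => ?_⟩
      change |i.f none| ≤ _
      rw [one_smul, abs_of_nonneg i.hf.1]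
    · exact ⟨n.down, Nat.cast_nonneg _, fun i => i.hf.2.2 n j⟩
  | add p q hp hq =>
    obtain ⟨c, hc, h⟩ := hp
    obtain ⟨d, hd, h'⟩ := hq
    refine ⟨c + d, add_nonneg hc hd, fun i => ?_⟩
    change |p.ev i.f + q.ev i.f| ≤ _
    rw [add_smul]
    exact (abs_add_le _ _).trans (add_le_add (h i) (h' i))
  | smul r p hp =>
    obtain ⟨c, hc, h⟩ := hp
    refine ⟨|r| * c, mul_nonneg (abs_nonneg r) hc, fun i => ?_⟩
    change |r • p.ev i.f| ≤ _
    have h2 : ∀ (s : ℝ) (x : i.Y), 0 ≤ s → |s • x| = s • |x| := fun s x hs => by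
      change s • x ⊔ -(s • x) = s • (x ⊔ -x)
      rw [smul_sup_of_nonneg s hs, smul_neg]
    have h1 : |r • p.ev i.f| = |r| • |p.ev i.f| := by
      rcases le_total 0 r with hr | hr
      · rw [abs_of_nonneg hr, h2 r _ hr]
      · rw [abs_of_nonpos hr, ← h2 (-r) _ (neg_nonneg.2 hr), neg_smul, abs_neg]
    rw [h1, mul_smul]
    exact smul_le_smul_of_nonneg_left (h i) (abs_nonneg r)
  | sup p q hp hq =>
    obtain ⟨c, hc, h⟩ := hp
    obtain ⟨d, hd, h'⟩ := hq
    refine ⟨c + d, add_nonneg hc hd, fun i => ?_⟩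
    change |p.ev i.f ⊔ q.ev i.f| ≤ _
    rw [add_smul]
    refine le_trans ?_ (add_le_add (h i) (h' i))
    rw [abs_le']
    constructor
    · refine sup_le ?_ ?_
      · exact (le_abs_self _).trans (le_add_of_nonneg_right (abs_nonneg _))
      · exact (le_abs_self _).trans (le_add_of_nonneg_left (abs_nonneg _))
    · rw [neg_sup]
      exact inf_le_left.trans ((neg_le_abs _).trans (le_add_of_nonneg_right (abs_nonneg _)))

/-- The unit. -/
noncomputable def unit (I : Type u) : Un I := tm (Tm.gen none)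

theorem unit_nonneg : 0 ≤ unit I := by
  have h := tm_le (S := unitPres I) (p := Tm.zero) (q := Tm.gen none) (fun i => i.hf.1)
  rwa [tm_zero] at h

theorem abs_tm_le {p : Tm (Gn I)} {c : ℝ}
    (h : ∀ i : Idx (unitPres I), |p.ev i.f| ≤ c • i.f none) :
    |(tm p : Un I)| ≤ c • unit I := by
  rw [abs_le']
  constructor
  · have h1 := tm_le (S := unitPres I) (p := p) (q := Tm.smul c (Tm.gen none))
      (fun i => (le_abs_self _).trans (h i))
    rwa [tm_smul] at h1
  · have h1 := tm_le (S := unitPres I) (p := Tm.smul (-1) p) (q := Tm.smul c (Tm.gen none))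
      (fun i => by
        change (-1 : ℝ) • p.ev i.f ≤ c • i.f none
        rw [neg_smul, one_smul]
        exact (neg_le_abs _).trans (h i))
    rwa [tm_smul, tm_smul, neg_smul, one_smul] at h1

theorem abs_gen_le (n : ULift.{u} ℕ) (i : I) :
    |(tm (Tm.gen (some (n, i))) : Un I)| ≤ (n.down : ℝ) • unit I :=
  abs_tm_le fun j => j.hf.2.2 n i

theorem unit_isTopUnit : IsTopUnit (unit I) := by
  refine ⟨unit_nonneg, fun J hJ hu => ?_⟩
  have h1 : Set.range (tm : Tm (Gn I) → Un I) ⊆ (J : Set (Un I)) := by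
    rintro _ ⟨p, rfl⟩
    obtain ⟨c, hc, h⟩ := tm_bound p
    refine hJ.solid (c • unit I) (J.smul_mem c hu) _ ?_
    exact (abs_tm_le h).trans (le_abs_self _)
  have h2 : closure (Set.range (tm : Tm (Gn I) → Un I)) ⊆ (J : Set (Un I)) :=
    closure_minimal h1 hJ.closed
  rw [eq_top_iff]
  intro x _
  exact h2 (tm_dense x)

theorem un_projective : Projective (Un I) := by
  intro X Y _ _ Q hQ T hT ε hε
  rcases (norm_nonneg T).eq_or_lt with hM | hM
  · refine ⟨0, isLatHom_of_sup fun x y => ?_, fun p => ?_, ?_⟩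
    · change (0 : X) = 0 ⊔ 0
      rw [sup_idem]
    · have h1 : T = 0 := norm_eq_zero.1 hM.symm
      rw [h1]
      change Q 0 = 0
      exact map_zero Q
    · rw [← hM]
      simp
  · set M := ‖T‖ with hMd
    set c := (1 + ε) * M with hc
    have hcM : M < c := by
      rw [hc]
      nlinarith
    have hc0 : 0 < c := hM.trans hcM
    set y : Gn I → Y := fun g => T (tm (Tm.gen g)) with hy
    have hyn : ∀ g, ‖y g‖ < c := fun g => by
      refine lt_of_le_of_lt ?_ hcM
      refine (T.le_opNorm _).trans ?_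
      exact mul_le_of_le_one_right hM.le (norm_tm_gen g)
    have hx : ∀ g, ∃ x, Q x = y g ∧ ‖x‖ < c := fun g => hQ.exists_lt (y g) (hyn g)
    choose x hxy hxn using hx
    have hy0 : 0 ≤ y none := hT.nonneg unit_nonneg
    have hyl : ∀ (n : ULift.{u} ℕ) (i : I), |y (some (n, i))| ≤ (n.down : ℝ) • y none := by
      intro n i
      have h1 := hT.mono (abs_gen_le n i)
      rw [hT.abs, map_smul] at h1
      exact h1
    set e : X := |x none| with he
    have he0 : 0 ≤ e := abs_nonneg _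
    have hQe : Q e = y none := by
      rw [he, hQ.hom.abs, hxy, abs_of_nonneg hy0]
    set z : Gn I → X := fun g => match g with
      | none => e
      | some (n, i) => clamp ((n.down : ℝ) • e) (x (some (n, i))) with hz
    have hza : ∀ n : ULift.{u} ℕ, 0 ≤ (n.down : ℝ) • e := fun n =>
      smul_nonneg (Nat.cast_nonneg _) he0
    have hzn : ∀ g, ‖z g‖ < c := by
      rintro (_ | ⟨n, i⟩)
      · change ‖e‖ < c
        rw [he, norm_abs_eq_norm]
        exact hxn none
      · exact lt_of_le_of_lt (norm_clamp_le (hza n) _) (hxn _)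
    have hQz : ∀ g, Q (z g) = y g := by
      rintro (_ | ⟨n, i⟩)
      · exact hQe
      · change Q (clamp ((n.down : ℝ) • e) (x (some (n, i)))) = y (some (n, i))
        rw [hQ.hom.clamp, map_smul, hQe, hxy]
        exact clamp_eq (hyl n i)
    have hadm : (unitPres I).adm X (fun g => c⁻¹ • z g) := by
      refine ⟨smul_nonneg (inv_nonneg.2 hc0.le) he0, fun g => ?_, fun n i => ?_⟩
      · rw [norm_smul, Real.norm_eq_abs, abs_of_pos (inv_pos.2 hc0), inv_mul_le_iff₀ hc0, mul_one]
        exact (hzn g).le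
      · change |c⁻¹ • clamp ((n.down : ℝ) • e) (x (some (n, i)))| ≤ (n.down : ℝ) • (c⁻¹ • e)
        have h2 : |c⁻¹ • clamp ((n.down : ℝ) • e) (x (some (n, i)))| =
            c⁻¹ • |clamp ((n.down : ℝ) • e) (x (some (n, i)))| := by
          change _ ⊔ -_ = c⁻¹ • (_ ⊔ -_)
          rw [smul_sup_of_nonneg _ (inv_nonneg.2 hc0.le), smul_neg]
        rw [h2, smul_comm]
        exact smul_le_smul_of_nonneg_left (abs_clamp_le (hza n) _) (inv_nonneg.2 hc0.le)
    set j : Idx (unitPres I) := ⟨X, inferInstance, _, hadm⟩ with hj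
    refine ⟨c • lft j, (lft_hom j).smul c hc0.le, fun p => ?_, ?_⟩
    · refine hom_ext (A := Q.comp (c • lft j)) (B := T)
        (hQ.hom.comp ((lft_hom j).smul c hc0.le)) hT (fun g => ?_) p
      change Q (c • lft j (tm (Tm.gen g))) = y g
      rw [lft_tm]
      change Q (c • (c⁻¹ • z g)) = y g
      rw [smul_smul, mul_inv_cancel₀ hc0.ne', one_smul, hQz]
    · refine ContinuousLinearMap.opNorm_le_bound _ hc0.le fun p => ?_
      change ‖c • lft j p‖ ≤ c * ‖p‖
      rw [norm_smul, Real.norm_eq_abs, abs_of_pos hc0]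
      exact mul_le_mul_of_nonneg_left (lft_norm j p) hc0.le

end Pool.Agent.PBL
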