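import Pool.Agent.PBL.Proj

/-!
# Every Banach lattice with a topological order unit is a quotient
-/

namespace Pool.Agent.PBL

open Filter Topology

universe u v w

theorem exists_exact {P : Type u} {X : Type v} [BanachLattice P] [BanachLattice X]
    (f : P →L[ℝ] X) (h : ∀ (x : X) (δ : ℝ), 0 < δ → ∃ p, ‖f p - x‖ ≤ δ ∧ ‖p‖ ≤ ‖x‖)
    (x : X) (ε : ℝ) (hε : 0 < ε) : ∃ p, f p = x ∧ ‖p‖ ≤ ‖x‖ + ε := by
  choose g hg1 hg2 using h
  have hδ : ∀ k : ℕ, 0 < ε / 2 / 2 ^ k := fun k => by positivity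
  let r : ℕ → X := fun n => Nat.rec x (fun k y => y - f (g y (ε / 2 / 2 ^ k) (hδ k))) n
  let p : ℕ → P := fun k => g (r k) (ε / 2 / 2 ^ k) (hδ k)
  have hr0 : r 0 = x := rfl
  have hrs : ∀ k, r (k + 1) = r k - f (p k) := fun k => rfl
  have hrn : ∀ k, ‖r (k + 1)‖ ≤ ε / 2 / 2 ^ k := fun k => by
    rw [hrs, norm_sub_rev]
    exact hg1 (r k) _ (hδ k)
  have hp : ∀ k, ‖p (k + 1)‖ ≤ ε / 2 / 2 ^ k := fun k => (hg2 _ _ _).trans (hrn k)
  have hsum : HasSum (fun k : ℕ => ε / 2 / 2 ^ k) ε := hasSum_geometric_two' ε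
  have hps : Summable (fun k => p (k + 1)) := Summable.of_norm_bounded hsum.summable hp
  have hpn : ‖∑' k, p (k + 1)‖ ≤ ε := tsum_of_norm_bounded hsum hp
  have hpart : ∀ n, ∑ k ∈ Finset.range n, f (p (k + 1)) = r 1 - r (n + 1) := by
    intro n
    induction n with
    | zero => simp
    | succ n ih =>
      rw [Finset.sum_range_succ, ih, hrs (n + 1)]
      abel
  have hr : Tendsto (fun n => r (n + 1)) atTop (𝓝 0) := by
    rw [tendsto_zero_iff_norm_tendsto_zero]
    exact squeeze_zero (fun n => norm_nonneg _) hrn hsum.summable.tendsto_atTop_zero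
  have hf : HasSum (fun k => f (p (k + 1))) (f (∑' k, p (k + 1))) := f.hasSum hps.hasSum
  have h1 : f (∑' k, p (k + 1)) = r 1 := by
    have h2 := hf.tendsto_sum_nat
    have h3 : Tendsto (fun n => ∑ k ∈ Finset.range n, f (p (k + 1))) atTop (𝓝 (r 1 - 0)) := by
      simp only [hpart]
      exact tendsto_const_nhds.sub hr
    rw [sub_zero] at h3
    exact tendsto_nhds_unique h2 h3
  refine ⟨p 0 + ∑' k, p (k + 1), ?_, ?_⟩
  · have h4 : r 1 = x - f (p 0) := hrs 0
    rw [map_add, h1, h4]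
    abel
  · exact (norm_add_le _ _).trans (add_le_add (hg2 _ _ _) hpn)

section

variable {X : Type u} [BanachLattice X]

theorem abs_smul_nat (r : ℝ) (x : X) : |r • x| = |r| • |x| := by
  have h2 : ∀ (s : ℝ) (x : X), 0 ≤ s → |s • x| = s • |x| := fun s x hs => by
    change s • x ⊔ -(s • x) = s • (x ⊔ -x)
    rw [smul_sup_of_nonneg s hs, smul_neg]
  rcases le_total 0 r with hr | hr
  · rw [abs_of_nonneg hr, h2 r _ hr]
  · rw [abs_of_nonpos hr, ← h2 (-r) _ (neg_nonneg.2 hr), neg_smul, abs_neg]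

/-- The ideal generated by `e`. -/
def idl (e : X) (he : 0 ≤ e) : Submodule ℝ X where
  carrier := {x | ∃ n : ℕ, |x| ≤ (n : ℝ) • e}
  add_mem' := by
    rintro x y ⟨n, hn⟩ ⟨m, hm⟩
    refine ⟨n + m, ?_⟩
    rw [Nat.cast_add, add_smul]
    exact (abs_add_le _ _).trans (add_le_add hn hm)
  zero_mem' := ⟨0, by simp⟩
  smul_mem' := by
    rintro r x ⟨n, hn⟩
    obtain ⟨m, hm⟩ := exists_nat_ge |r|
    refine ⟨m * n, ?_⟩
    rw [abs_smul_nat, Nat.cast_mul, mul_smul]
    refine (smul_le_smul_of_nonneg_left hn (abs_nonneg r)).trans ?_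
    have h0 : (0 : X) ≤ (n : ℝ) • e := smul_nonneg (Nat.cast_nonneg n) he
    have h1 := smul_nonneg (sub_nonneg.2 hm) h0
    rw [sub_smul] at h1
    exact sub_nonneg.1 h1

theorem dense_idl {e : X} (he : IsTopUnit e) : Dense (idl e he.1 : Set X) := by
  have h : (idl e he.1).topologicalClosure = ⊤ := by
    refine he.2 _ ⟨fun x hx y hy => ?_, Submodule.isClosed_topologicalClosure _⟩
      (Submodule.le_topologicalClosure _ ⟨1, by simp [abs_of_nonneg he.1]⟩)
    let F : X → X := fun z => clamp |z| y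
    have hF : Continuous F := by
      have h1 : Continuous (fun z : X => |z|) := continuous_id.sup continuous_neg
      exact (continuous_const.inf h1).sup h1.neg
    have hFm : Set.MapsTo F (idl e he.1 : Set X) (idl e he.1 : Set X) := by
      rintro z ⟨n, hn⟩
      exact ⟨n, (abs_clamp_le (abs_nonneg z) y).trans hn⟩
    have h2 : F x ∈ closure (idl e he.1 : Set X) := map_mem_closure hF hx hFm
    have h3 : F x = y := clamp_eq hy
    rw [h3] at h2
    exact h2
  rw [Submodule.dense_iff_topologicalClosure_eq_top]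
  exact h

theorem exists_clamp {e : X} (he : IsTopUnit e) (x : X) (δ : ℝ) (hδ : 0 < δ) :
    ∃ n : ℕ, ‖clamp ((n : ℝ) • e) x - x‖ < δ := by
  obtain ⟨y, hy, hd⟩ := Metric.mem_closure_iff.1 (dense_idl he x) (δ / 2) (by positivity)
  obtain ⟨n, hn⟩ := hy
  refine ⟨n, ?_⟩
  rw [dist_eq_norm] at hd
  have h1 : clamp ((n : ℝ) • e) x - x =
      (clamp ((n : ℝ) • e) x - clamp ((n : ℝ) • e) y) + (y - x) := by
    rw [clamp_eq hn]
    abel
  rw [h1]
  refine (norm_add_le _ _).trans_lt ?_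
  have h2 := norm_clamp_sub_le ((n : ℝ) • e) x y
  have h3 : ‖y - x‖ < δ / 2 := by rwa [norm_sub_rev]
  linarith

theorem isTopUnit_smul {e : X} (he : IsTopUnit e) {c : ℝ} (hc : 0 < c) : IsTopUnit (c • e) := by
  refine ⟨smul_nonneg hc.le he.1, fun J hJ h => he.2 J hJ ?_⟩
  have h1 := J.smul_mem c⁻¹ h
  rwa [smul_smul, inv_mul_cancel₀ hc.ne', one_smul] at h1

/-- The retraction onto the part of the unit ball below `a`. -/
noncomputable def ret (a x : X) : X := (max 1 ‖clamp a x‖)⁻¹ • clamp a x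

theorem ret_continuous (a : X) : Continuous (ret a) := by
  have h1 := clamp_continuous a
  refine Continuous.smul (Continuous.inv₀ (continuous_const.max h1.norm) fun x => ?_) h1
  exact (lt_of_lt_of_le one_pos (le_max_left _ _)).ne'

theorem norm_ret_le (a x : X) : ‖ret a x‖ ≤ 1 := by
  have h0 : (0 : ℝ) < max 1 ‖clamp a x‖ := lt_of_lt_of_le one_pos (le_max_left _ _)
  unfold ret
  rw [norm_smul, norm_inv, Real.norm_eq_abs, abs_of_pos h0, inv_mul_le_iff₀ h0, mul_one]
  exact le_max_right _ _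

theorem abs_ret_le {a : X} (ha : 0 ≤ a) (x : X) : |ret a x| ≤ a := by
  have h0 : (0 : ℝ) < max 1 ‖clamp a x‖ := lt_of_lt_of_le one_pos (le_max_left _ _)
  unfold ret
  rw [abs_smul_nat, abs_of_pos (inv_pos.2 h0)]
  refine (smul_le_smul_of_nonneg_left (abs_clamp_le ha x) (inv_nonneg.2 h0.le)).trans ?_
  have h1 : (0 : ℝ) ≤ 1 - (max 1 ‖clamp a x‖)⁻¹ := sub_nonneg.2 (inv_le_one_of_one_le₀ (le_max_left _ _))
  have h2 := smul_nonneg h1 ha
  rw [sub_smul, one_smul] at h2
  exact sub_nonneg.1 h2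

theorem ret_eq {a x : X} (h : ‖clamp a x‖ ≤ 1) : ret a x = clamp a x := by
  unfold ret
  rw [max_eq_left h, inv_one, one_smul]

end

theorem exists_quot (I : Type u) (X : Type u) [BanachLattice X] {e0 : X} (he0 : IsTopUnit e0)
    (d : I → X) (hd : DenseRange d) : ∃ Q : Un I →L[ℝ] X, IsQuotMap Q := by
  have hc : (0 : ℝ) < (‖e0‖ + 1)⁻¹ := by positivity
  set e : X := (‖e0‖ + 1)⁻¹ • e0 with hed
  have he : IsTopUnit e := isTopUnit_smul he0 hc
  have hen : ‖e‖ ≤ 1 := by
    rw [hed, norm_smul, Real.norm_eq_abs, abs_of_pos hc, inv_mul_le_iff₀ (by positivity), mul_one]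
    linarith
  set f : Gn I → X := fun g => match g with
    | none => e
    | some (n, i) => ret ((n.down : ℝ) • e) (d i) with hf
  have hne : ∀ n : ULift.{u} ℕ, 0 ≤ (n.down : ℝ) • e := fun n =>
    smul_nonneg (Nat.cast_nonneg _) he.1
  have hadm : (unitPres I).adm X f := by
    refine ⟨he.1, ?_, fun n i => abs_ret_le (hne n) (d i)⟩
    rintro (_ | ⟨n, i⟩)
    · exact hen
    · exact norm_ret_le _ _
  set j : Idx (unitPres I) := ⟨X, inferInstance, f, hadm⟩ with hj
  have happ : ∀ (x : X) (δ : ℝ), 0 < δ → ∃ p, ‖lft j p - x‖ ≤ δ ∧ ‖p‖ ≤ ‖x‖ := by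
    intro x δ hδ
    rcases (norm_nonneg x).eq_or_lt with hx | hx
    · refine ⟨0, ?_, ?_⟩
      · rw [map_zero, zero_sub, norm_neg, ← hx]
        exact hδ.le
      · rw [norm_zero]
        exact norm_nonneg x
    · set x' : X := ‖x‖⁻¹ • x with hx'
      have hxn : ‖x'‖ = 1 := by
        rw [hx', norm_smul, norm_inv, norm_norm, inv_mul_cancel₀ hx.ne']
      have hxx : ‖x‖ • x' = x := by rw [hx', smul_smul, mul_inv_cancel₀ hx.ne', one_smul]
      obtain ⟨n, hn⟩ := exists_clamp he x' (δ / (2 * ‖x‖)) (by positivity)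
      have h1 : ‖clamp ((n : ℝ) • e) x'‖ ≤ 1 :=
        (norm_clamp_le (smul_nonneg (Nat.cast_nonneg n) he.1) x').trans hxn.le
      have hcont := (ret_continuous ((n : ℝ) • e)).tendsto x'
      have hnb : {z : X | ‖ret ((n : ℝ) • e) z - ret ((n : ℝ) • e) x'‖ < δ / (2 * ‖x‖)} ∈ 𝓝 x' := by
        have h2 := Metric.tendsto_nhds.1 hcont (δ / (2 * ‖x‖)) (by positivity)
        filter_upwards [h2] with z hz
        rwa [dist_eq_norm] at hz
      obtain ⟨z, hz, i, rfl⟩ := mem_closure_iff_nhds.1 (hd x') _ hnb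
      refine ⟨‖x‖ • tm (Tm.gen (some (⟨n⟩, i))), ?_, ?_⟩
      · have h3 : lft j (‖x‖ • tm (Tm.gen (some (⟨n⟩, i)))) - x =
            ‖x‖ • ((ret ((n : ℝ) • e) (d i) - ret ((n : ℝ) • e) x') +
              (clamp ((n : ℝ) • e) x' - x')) := by
          rw [map_smul, lft_tm, ret_eq h1, sub_add_sub_cancel, smul_sub, hxx]
          rfl
        rw [h3, norm_smul, norm_norm]
        have h4 := (norm_add_le (ret ((n : ℝ) • e) (d i) - ret ((n : ℝ) • e) x')
          (clamp ((n : ℝ) • e) x' - x')).trans (add_le_add (le_of_lt hz) hn.le)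
        refine (mul_le_mul_of_nonneg_left h4 hx.le).trans (le_of_eq ?_)
        field_simp
        ring
      · rw [norm_smul, norm_norm]
        exact mul_le_of_le_one_right hx.le (norm_tm_gen _)
  refine ⟨lft j, lft_hom j, fun x => ?_, fun x => ?_⟩
  · obtain ⟨p, hp, -⟩ := exists_exact (lft j) happ x 1 one_pos
    exact ⟨p, hp⟩
  · refine le_antisymm ?_ ?_
    · obtain ⟨p, hp, -⟩ := exists_exact (lft j) happ x 1 one_pos
      refine le_csInf ⟨_, p, hp, rfl⟩ ?_
      rintro _ ⟨q, hq, rfl⟩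
      rw [← (show lft j q = x from hq)]
      exact lft_norm j q
    · refine le_of_forall_pos_le_add fun ε hε => ?_
      obtain ⟨p, hp, hpn⟩ := exists_exact (lft j) happ x ε hε
      have hbb : BddBelow ((fun q => ‖q‖) '' ((lft j) ⁻¹' {x})) := by
        refine ⟨0, ?_⟩
        rintro _ ⟨q, -, rfl⟩
        exact norm_nonneg q
      exact (csInf_le hbb ⟨p, hp, rfl⟩).trans hpn

end Pool.Agent.PBL
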