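import Pool.Agent.PBL.Defs

/-!
# The normed lattice of lattice-linear terms modulo a class of admissible families
-/

namespace Pool.Agent.PBL

universe u v

/-- Lattice-linear terms in the generators `G`. -/
inductive Tm (G : Type u) : Type u
  | zero : Tm G
  | gen : G → Tm G
  | add : Tm G → Tm G → Tm G
  | smul : ℝ → Tm G → Tm G
  | sup : Tm G → Tm G → Tm G

namespace Tm

variable {G : Type u}

/-- The value of a term at a family of elements of a Banach lattice. -/
def ev {Y : Type v} [BanachLattice Y] (f : G → Y) : Tm G → Y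
  | zero => 0
  | gen g => f g
  | add p q => ev f p + ev f q
  | smul r p => r • ev f p
  | sup p q => ev f p ⊔ ev f q

/-- A bound for the norm of the value of a term. -/
def bd : Tm G → ℝ
  | zero => 0
  | gen _ => 1
  | add p q => bd p + bd q
  | smul r p => |r| * bd p
  | sup p q => bd p + bd q

theorem norm_ev_le {Y : Type v} [BanachLattice Y] (f : G → Y) (hf : ∀ g, ‖f g‖ ≤ 1) :
    ∀ p : Tm G, ‖ev f p‖ ≤ bd p
  | zero => by simp [ev, bd]
  | gen g => hf g
  | add p q => (norm_add_le _ _).trans (add_le_add (norm_ev_le f hf p) (norm_ev_le f hf q))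
  | smul r p => by
    have h := norm_ev_le f hf p
    change ‖r • ev f p‖ ≤ |r| * bd p
    rw [norm_smul, Real.norm_eq_abs]
    exact mul_le_mul_of_nonneg_left h (abs_nonneg r)
  | sup p q => (norm_sup_le_add _ _).trans (add_le_add (norm_ev_le f hf p) (norm_ev_le f hf q))

/-- The negative of a term. -/
def neg (p : Tm G) : Tm G := smul (-1) p

/-- The infimum of two terms. -/
def inf (p q : Tm G) : Tm G := neg (sup (neg p) (neg q))

theorem ev_neg {Y : Type v} [BanachLattice Y] (f : G → Y) (p : Tm G) :
    ev f (neg p) = -ev f p := by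
  change (-1 : ℝ) • ev f p = _
  rw [neg_smul, one_smul]

theorem ev_inf {Y : Type v} [BanachLattice Y] (f : G → Y) (p q : Tm G) :
    ev f (inf p q) = ev f p ⊓ ev f q := by
  unfold inf
  rw [ev_neg]
  change -(ev f (neg p) ⊔ ev f (neg q)) = _
  rw [ev_neg, ev_neg, neg_sup, neg_neg, neg_neg]

end Tm

/-- A class of admissible families, indexed by `G`, of elements of norm at most one of Banach
lattices. -/
structure Pres (G : Type u) where
  adm : ∀ (Y : Type u) [BanachLattice Y], (G → Y) → Prop
  norm_le : ∀ (Y : Type u) [BanachLattice Y] (f : G → Y), adm Y f → ∀ g, ‖f g‖ ≤ 1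

variable {G : Type u}

/-- An admissible family in some Banach lattice. -/
structure Idx (S : Pres G) : Type (u + 1) where
  Y : Type u
  inst : BanachLattice Y
  f : G → Y
  hf : S.adm Y f

attribute [instance] Idx.inst

variable (S : Pres G)

/-- Two terms are equivalent if they have the same value at all admissible families. -/
def tmSetoid : Setoid (Tm G) where
  r p q := ∀ i : Idx S, p.ev i.f = q.ev i.f
  iseqv := ⟨fun _ _ => rfl, fun h i => (h i).symm, fun h h' i => (h i).trans (h' i)⟩

/-- The lattice of terms. -/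
def Lt : Type u := Quotient (tmSetoid S)

namespace Lt

variable {S}

/-- The class of a term. -/
def mk (p : Tm G) : Lt S := Quotient.mk (tmSetoid S) p

/-- The value at all admissible families. -/
def all : Lt S → (i : Idx S) → i.Y :=
  Quotient.lift (fun p i => Tm.ev i.f p) (fun _ _ h => funext h)

theorem all_mk (p : Tm G) (i : Idx S) : all (mk p : Lt S) i = Tm.ev i.f p := rfl

theorem all_injective : Function.Injective (all : Lt S → (i : Idx S) → i.Y) := by
  intro a b
  refine Quotient.inductionOn₂ a b (fun p q h => ?_)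
  exact Quotient.sound (s := tmSetoid S) (fun i => congrFun h i)

theorem ind {C : Lt S → Prop} (h : ∀ p, C (mk p)) (a : Lt S) : C a :=
  Quotient.inductionOn a h

instance : Zero (Lt S) := ⟨mk Tm.zero⟩

instance : Add (Lt S) :=
  ⟨Quotient.map₂ Tm.add (fun _ _ h _ _ h' i => congrArg₂ (· + ·) (h i) (h' i))⟩

instance : Max (Lt S) :=
  ⟨Quotient.map₂ Tm.sup (fun _ _ h _ _ h' i => congrArg₂ (· ⊔ ·) (h i) (h' i))⟩

instance : SMul ℝ (Lt S) :=
  ⟨fun r => Quotient.map (Tm.smul r) (fun _ _ h i => congrArg (r • ·) (h i))⟩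

instance : Neg (Lt S) := ⟨fun a => (-1 : ℝ) • a⟩

instance : Sub (Lt S) := ⟨fun a b => a + -b⟩

instance : Min (Lt S) := ⟨fun a b => -(-a ⊔ -b)⟩

instance : SMul ℕ (Lt S) := ⟨fun n a => (n : ℝ) • a⟩

instance : SMul ℤ (Lt S) := ⟨fun n a => (n : ℝ) • a⟩

instance : LE (Lt S) := ⟨fun a b => all a ≤ all b⟩

instance : LT (Lt S) := ⟨fun a b => all a < all b⟩

theorem all_zero : all (0 : Lt S) = 0 := rfl

theorem all_add (a b : Lt S) : all (a + b) = all a + all b := by
  induction a using ind with
  | h p => induction b using ind with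
    | h q => rfl

theorem all_sup (a b : Lt S) : all (a ⊔ b) = all a ⊔ all b := by
  induction a using ind with
  | h p => induction b using ind with
    | h q => rfl

theorem all_smul (r : ℝ) (a : Lt S) : all (r • a) = r • all a := by
  induction a using ind with
  | h p => rfl

theorem all_neg (a : Lt S) : all (-a) = -all a := by
  change all ((-1 : ℝ) • a) = _
  rw [all_smul, neg_smul, one_smul]

theorem all_sub (a b : Lt S) : all (a - b) = all a - all b := by
  change all (a + -b) = _
  rw [all_add, all_neg, sub_eq_add_neg]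

theorem all_inf (a b : Lt S) : all (a ⊓ b) = all a ⊓ all b := by
  change all (-(-a ⊔ -b)) = _
  rw [all_neg, all_sup, all_neg, all_neg]
  funext i
  change -(-all a i ⊔ -all b i) = all a i ⊓ all b i
  rw [neg_sup, neg_neg, neg_neg]

instance : AddCommGroup (Lt S) :=
  all_injective.addCommGroup all all_zero all_add all_neg all_sub
    (fun a n => by
      change all ((n : ℝ) • a) = _
      rw [all_smul, Nat.cast_smul_eq_nsmul])
    (fun a n => by
      change all ((n : ℝ) • a) = _
      rw [all_smul, Int.cast_smul_eq_zsmul])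

instance : Lattice (Lt S) :=
  all_injective.lattice all Iff.rfl Iff.rfl all_sup all_inf

/-- `all` as an additive homomorphism. -/
def allHom : Lt S →+ ((i : Idx S) → i.Y) where
  toFun := all
  map_zero' := all_zero
  map_add' := all_add

instance : Module ℝ (Lt S) :=
  all_injective.module ℝ allHom all_smul

theorem all_abs (a : Lt S) : all |a| = |all a| := by
  change all (a ⊔ -a) = all a ⊔ -all a
  rw [all_sup, all_neg]

theorem all_abs_apply (a : Lt S) (i : Idx S) : all |a| i = |all a i| := by
  rw [all_abs]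
  rfl

theorem le_iff (a b : Lt S) : a ≤ b ↔ ∀ i, all a i ≤ all b i := Iff.rfl

/-- The norm. -/
noncomputable def nrm (a : Lt S) : ℝ := ⨆ i : Idx S, ‖all a i‖

theorem bdd (a : Lt S) : BddAbove (Set.range (fun i : Idx S => ‖all a i‖)) := by
  induction a using ind with
  | h p =>
    refine ⟨p.bd, ?_⟩
    rintro _ ⟨i, rfl⟩
    exact Tm.norm_ev_le i.f (S.norm_le i.Y i.f i.hf) p

theorem le_nrm (a : Lt S) (i : Idx S) : ‖all a i‖ ≤ nrm a := le_ciSup (bdd a) i

theorem nrm_nonneg (a : Lt S) : 0 ≤ nrm a := Real.iSup_nonneg fun _ => norm_nonneg _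

theorem nrm_le {a : Lt S} {C : ℝ} (hC : 0 ≤ C) (h : ∀ i, ‖all a i‖ ≤ C) : nrm a ≤ C :=
  Real.iSup_le h hC

/-- The norm as a group norm. -/
noncomputable def gnorm : AddGroupNorm (Lt S) where
  toFun := nrm
  map_zero' := by
    refine le_antisymm (nrm_le le_rfl fun i => ?_) (nrm_nonneg 0)
    rw [all_zero]
    simp
  add_le' a b := by
    refine nrm_le (add_nonneg (nrm_nonneg a) (nrm_nonneg b)) fun i => ?_
    rw [all_add]
    exact (norm_add_le _ _).trans (add_le_add (le_nrm a i) (le_nrm b i))
  neg' a := by
    unfold nrm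
    simp only [all_neg, Pi.neg_apply, norm_neg]
  eq_zero_of_map_eq_zero' a h := by
    refine all_injective (funext fun i => ?_)
    have h1 := le_nrm a i
    rw [show nrm a = 0 from h] at h1
    rw [norm_le_zero_iff.1 h1]
    rfl

noncomputable instance : NormedAddCommGroup (Lt S) := gnorm.toNormedAddCommGroup

theorem norm_def (a : Lt S) : ‖a‖ = nrm a := rfl

noncomputable instance : NormedSpace ℝ (Lt S) where
  norm_smul_le r a := by
    rw [norm_def, norm_def]
    refine nrm_le (mul_nonneg (norm_nonneg r) (nrm_nonneg a)) fun i => ?_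
    rw [all_smul]
    change ‖r • all a i‖ ≤ _
    rw [norm_smul]
    exact mul_le_mul_of_nonneg_left (le_nrm a i) (norm_nonneg r)

instance : IsOrderedAddMonoid (Lt S) where
  add_le_add_left a b h c i := by
    rw [all_add, all_add]
    exact add_le_add_left (h i) (all c i)

instance : HasSolidNorm (Lt S) where
  solid a b h := by
    refine nrm_le (nrm_nonneg b) fun i => (BanachLattice.solid _ _ ?_).trans (le_nrm b i)
    have h1 := h i
    rwa [all_abs_apply, all_abs_apply] at h1

theorem smul_nonneg' (r : ℝ) (a : Lt S) (hr : 0 ≤ r) (ha : 0 ≤ a) : 0 ≤ r • a := by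
  intro i
  rw [all_smul]
  exact smul_nonneg hr (ha i)

theorem mk_add (p q : Tm G) : (mk (p.add q) : Lt S) = mk p + mk q := rfl

theorem mk_sup (p q : Tm G) : (mk (p.sup q) : Lt S) = mk p ⊔ mk q := rfl

theorem mk_smul (r : ℝ) (p : Tm G) : (mk (p.smul r) : Lt S) = r • mk p := rfl

theorem mk_zero : (mk Tm.zero : Lt S) = 0 := rfl

end Lt

end Pool.Agent.PBL
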